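import Pool.Agent.WR3.StmtsA

/-!
Row DEL of squad WR3.
-/

set_option autoImplicit false

namespace Pool.Agent.WR3.H74

open Pool.Agent.WIR Pool.Agent.WR2 Pool.Agent.WR3
open scoped BigOperators
open Finset

/-- the trivial bound for one `l`. -/
theorem P_le (h1 : SmuStmt) (t l : ℕ) :
    ∑ a ∈ Finset.Icc 1 (3 ^ l), |dl t l a| ≤ 2 * ((t + 1).choose l : ℝ) := by
  obtain ⟨s1, -, s3, -⟩ := h1
  rcases l with _ | k
  · have h : ∀ a ∈ Finset.Icc 1 (3 ^ 0), |dl t 0 a| ≤ (uT (t + 1) 0 a : ℝ) + (uT t 0 a : ℝ) := by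
      intro a _
      have e : dl t 0 a = (uT (t + 1) 0 a : ℝ) - (uT t 0 a : ℝ) := by
        simp [dl]
      rw [e]
      have p1 : (0 : ℝ) ≤ uT (t + 1) 0 a := Nat.cast_nonneg _
      have p2 : (0 : ℝ) ≤ uT t 0 a := Nat.cast_nonneg _
      rw [abs_le]
      constructor <;> linarith
    refine le_trans (Finset.sum_le_sum h) ?_
    rw [Finset.sum_add_distrib]
    have e1 : ∑ a ∈ Finset.Icc 1 (3 ^ 0), (uT (t + 1) 0 a : ℝ) = ((t + 1).choose 0 : ℝ) := by
      exact_mod_cast s1 (t + 1) 0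
    have e2 : ∑ a ∈ Finset.Icc 1 (3 ^ 0), (uT t 0 a : ℝ) = (t.choose 0 : ℝ) := by
      exact_mod_cast s1 t 0
    rw [e1, e2]
    simp
    norm_num
  · have h : ∀ a ∈ Finset.Icc 1 (3 ^ (k + 1)), |dl t (k + 1) a| ≤
        (uT (t + 1) (k + 1) a : ℝ) + (uT t (k + 1) a : ℝ) + (uT t k a : ℝ) / 3 := by
      intro a _
      have e : dl t (k + 1) a = (uT (t + 1) (k + 1) a : ℝ) - (uT t (k + 1) a : ℝ)
          - (uT t k a : ℝ) / 3 := by
        simp [dl]
      rw [e]
      have p1 : (0 : ℝ) ≤ uT (t + 1) (k + 1) a := Nat.cast_nonneg _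
      have p2 : (0 : ℝ) ≤ uT t (k + 1) a := Nat.cast_nonneg _
      have p3 : (0 : ℝ) ≤ (uT t k a : ℝ) / 3 := by positivity
      rw [abs_le]
      constructor <;> linarith
    refine le_trans (Finset.sum_le_sum h) ?_
    rw [Finset.sum_add_distrib, Finset.sum_add_distrib, ← Finset.sum_div]
    have e1 : ∑ a ∈ Finset.Icc 1 (3 ^ (k + 1)), (uT (t + 1) (k + 1) a : ℝ)
        = ((t + 1).choose (k + 1) : ℝ) := by
      exact_mod_cast s1 (t + 1) (k + 1)
    have e2 : ∑ a ∈ Finset.Icc 1 (3 ^ (k + 1)), (uT t (k + 1) a : ℝ) = (t.choose (k + 1) : ℝ) := by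
      exact_mod_cast s1 t (k + 1)
    have e3 : ∑ a ∈ Finset.Icc 1 (3 ^ (k + 1)), (uT t k a : ℝ) = 3 * (t.choose k : ℝ) := by
      exact_mod_cast s3 t k
    rw [e1, e2, e3]
    have e4 : ((t + 1).choose (k + 1) : ℝ) = (t.choose k : ℝ) + (t.choose (k + 1) : ℝ) := by
      exact_mod_cast Nat.choose_succ_succ t k
    rw [e4]
    apply le_of_eq
    ring

theorem P_nonneg (t l : ℕ) : 0 ≤ ∑ a ∈ Finset.Icc 1 (3 ^ l), |dl t l a| :=
  Finset.sum_nonneg (fun _ _ => abs_nonneg _)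

/-- the trivial bound for the whole sum. -/
theorem total_le (h1 : SmuStmt) (t : ℕ) :
    ∑ l ∈ Finset.range (t + 2), ∑ a ∈ Finset.Icc 1 (3 ^ l), |dl t l a| ≤ 4 * 2 ^ t := by
  refine le_trans (Finset.sum_le_sum (fun l _ => P_le h1 t l)) ?_
  rw [← Finset.mul_sum]
  have e : ∑ l ∈ Finset.range (t + 2), ((t + 1).choose l : ℝ) = 2 ^ (t + 1) := by
    exact_mod_cast Nat.sum_range_choose (t + 1)
  rw [e, pow_succ]
  apply le_of_eq
  ring

theorem exp_le (p t : ℕ) (ht : 1 ≤ t) :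
    Real.exp (-((t : ℝ) / 144)) ≤ (p.factorial : ℝ) * 288 ^ p / ((t : ℝ) + 1) ^ p := by
  have ht' : (1 : ℝ) ≤ t := by exact_mod_cast ht
  have hx : (0 : ℝ) ≤ (t : ℝ) / 144 := by positivity
  have h := Real.pow_div_factorial_le_exp ((t : ℝ) / 144) hx p
  have hf : (0 : ℝ) < (p.factorial : ℝ) := by exact_mod_cast Nat.factorial_pos p
  rw [le_div_iff₀ (by positivity)]
  have h2 : ((t : ℝ) + 1) ^ p ≤ 288 ^ p * ((t : ℝ) / 144) ^ p := by
    rw [← mul_pow]
    apply pow_le_pow_left₀ (by positivity)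
    linarith
  have h3 : ((t : ℝ) / 144) ^ p ≤ (p.factorial : ℝ) * Real.exp ((t : ℝ) / 144) := by
    rw [div_le_iff₀ hf] at h
    linarith
  have h4 : Real.exp (-((t : ℝ) / 144)) * Real.exp ((t : ℝ) / 144) = 1 := by
    rw [← Real.exp_add]; simp
  calc Real.exp (-((t : ℝ) / 144)) * ((t : ℝ) + 1) ^ p
      ≤ Real.exp (-((t : ℝ) / 144)) * (288 ^ p * ((p.factorial : ℝ) * Real.exp ((t : ℝ) / 144))) := by
        apply mul_le_mul_of_nonneg_left _ (Real.exp_pos _).le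
        refine le_trans h2 ?_
        apply mul_le_mul_of_nonneg_left h3 (by positivity)
    _ = (p.factorial : ℝ) * 288 ^ p * (Real.exp (-((t : ℝ) / 144)) * Real.exp ((t : ℝ) / 144)) := by
        ring
    _ = (p.factorial : ℝ) * 288 ^ p := by rw [h4, mul_one]

/-- the two tails. -/
theorem tail_le (t : ℕ) (ht : 8 ≤ t) :
    Real.exp (-(((t : ℝ) / 8) ^ 2 / (2 * ((t + 1 : ℕ) : ℝ)))) ≤ Real.exp (-((t : ℝ) / 144)) := by
  have ht' : (8 : ℝ) ≤ t := by exact_mod_cast ht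
  apply Real.exp_le_exp.mpr
  apply neg_le_neg
  rw [le_div_iff₀ (by positivity)]
  push_cast
  nlinarith

theorem del (h1 : SmuStmt) (h2 : DtyStmt) (h3 : HoeStmt) : DelStmt := by
  intro p
  obtain ⟨C1, hC1, hD⟩ := h2 (p + 1)
  have hf : (0 : ℝ) < (p.factorial : ℝ) := by exact_mod_cast Nat.factorial_pos p
  refine ⟨4 * 9 ^ p + 2 * 8 ^ (p + 1) * C1 + 8 * ((p.factorial : ℝ) * 288 ^ p), ?_, ?_⟩
  · have q1 : (1 : ℝ) ≤ 9 ^ p := one_le_pow₀ (by norm_num)
    have q2 : (0 : ℝ) ≤ 2 * 8 ^ (p + 1) * C1 := by positivity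
    have q3 : (0 : ℝ) ≤ 8 * ((p.factorial : ℝ) * 288 ^ p) := by positivity
    linarith
  intro t
  have hpos : (0 : ℝ) < ((t : ℝ) + 1) ^ p := by positivity
  by_cases ht : t < 8
  · refine le_trans (total_le h1 t) ?_
    rw [le_div_iff₀ hpos]
    have ht' : (t : ℝ) + 1 ≤ 9 := by
      have : (t : ℝ) ≤ 8 := by exact_mod_cast ht.le
      linarith
    have e1 : ((t : ℝ) + 1) ^ p ≤ 9 ^ p := pow_le_pow_left₀ (by positivity) ht' p
    have q2 : (0 : ℝ) ≤ 2 * 8 ^ (p + 1) * C1 := by positivity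
    have q3 : (0 : ℝ) ≤ 8 * ((p.factorial : ℝ) * 288 ^ p) := by positivity
    have q4 : (0 : ℝ) < 2 ^ t := by positivity
    calc 4 * 2 ^ t * ((t : ℝ) + 1) ^ p ≤ 4 * 2 ^ t * 9 ^ p := by
          apply mul_le_mul_of_nonneg_left e1 (by positivity)
      _ = (4 * 9 ^ p) * 2 ^ t := by ring
      _ ≤ _ := by
          apply mul_le_mul_of_nonneg_right _ q4.le
          linarith
  · push Not at ht
    have ht' : (8 : ℝ) ≤ t := by exact_mod_cast ht
    set P : ℕ → ℝ := fun l => ∑ a ∈ Finset.Icc 1 (3 ^ l), |dl t l a| with hP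
    have hP0 : ∀ l, 0 ≤ P l := fun l => P_nonneg t l
    have hP1 : ∀ l, P l ≤ 2 * ((t + 1).choose l : ℝ) := fun l => P_le h1 t l
    -- splitting
    have hsplit : ∑ l ∈ Finset.range (t + 2), P l ≤
        ∑ l ∈ (Finset.range (t + 2)).filter (fun l => t + 4 ≤ 4 * l ∧ 8 * l ≤ 5 * t), P l +
        ∑ l ∈ (Finset.range (t + 2)).filter (fun l => 4 * l < t + 4), P l +
        ∑ l ∈ (Finset.range (t + 2)).filter (fun l => 5 * t < 8 * l), P l := by
      rw [← Finset.sum_filter_add_sum_filter_not (Finset.range (t + 2))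
        (fun l => t + 4 ≤ 4 * l ∧ 8 * l ≤ 5 * t) P, add_assoc]
      apply add_le_add le_rfl
      have hsub : (Finset.range (t + 2)).filter (fun l => ¬ (t + 4 ≤ 4 * l ∧ 8 * l ≤ 5 * t)) ⊆
          (Finset.range (t + 2)).filter (fun l => 4 * l < t + 4) ∪
          (Finset.range (t + 2)).filter (fun l => 5 * t < 8 * l) := by
        intro l hl
        rw [Finset.mem_filter] at hl
        rw [Finset.mem_union, Finset.mem_filter, Finset.mem_filter]
        by_cases h : 4 * l < t + 4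
        · exact Or.inl ⟨hl.1, h⟩
        · refine Or.inr ⟨hl.1, ?_⟩
          by_contra h'
          apply hl.2
          omega
      refine le_trans (Finset.sum_le_sum_of_subset_of_nonneg hsub (fun l _ _ => hP0 l)) ?_
      rw [← Finset.sum_union_inter]
      have : 0 ≤ ∑ l ∈ (Finset.range (t + 2)).filter (fun l => 4 * l < t + 4) ∩
          (Finset.range (t + 2)).filter (fun l => 5 * t < 8 * l), P l :=
        Finset.sum_nonneg (fun l _ => hP0 l)
      linarith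
    -- typical
    have htyp : ∑ l ∈ (Finset.range (t + 2)).filter (fun l => t + 4 ≤ 4 * l ∧ 8 * l ≤ 5 * t), P l
        ≤ 2 * 8 ^ (p + 1) * C1 * 2 ^ t / ((t : ℝ) + 1) ^ p := by
      have hone : ∀ l ∈ (Finset.range (t + 2)).filter (fun l => t + 4 ≤ 4 * l ∧ 8 * l ≤ 5 * t),
          P l ≤ C1 * 2 ^ t * 8 ^ (p + 1) / ((t : ℝ) + 1) ^ (p + 1) := by
        intro l hl
        rw [Finset.mem_filter] at hl
        have h := hD t (t / 8) l (by omega) hl.2.2
        refine le_trans h ?_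
        have hm : ((t : ℝ) + 1) ≤ 8 * (((t / 8 : ℕ) : ℝ) + 1) := by
          have : t + 1 ≤ 8 * (t / 8 + 1) := by omega
          exact_mod_cast this
        have hm' : ((t : ℝ) + 1) ^ (p + 1) ≤ 8 ^ (p + 1) * (((t / 8 : ℕ) : ℝ) + 1) ^ (p + 1) := by
          rw [← mul_pow]
          exact pow_le_pow_left₀ (by positivity) hm _
        rw [div_le_div_iff₀ (by positivity) (by positivity)]
        calc C1 * 2 ^ t * ((t : ℝ) + 1) ^ (p + 1)
            ≤ C1 * 2 ^ t * (8 ^ (p + 1) * (((t / 8 : ℕ) : ℝ) + 1) ^ (p + 1)) := by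
              apply mul_le_mul_of_nonneg_left hm' (by positivity)
          _ = C1 * 2 ^ t * 8 ^ (p + 1) * (((t / 8 : ℕ) : ℝ) + 1) ^ (p + 1) := by ring
      refine le_trans (Finset.sum_le_card_nsmul _ _ _ hone) ?_
      rw [nsmul_eq_mul]
      have hcard : ((((Finset.range (t + 2)).filter
          (fun l => t + 4 ≤ 4 * l ∧ 8 * l ≤ 5 * t)).card : ℕ) : ℝ) ≤ 2 * ((t : ℝ) + 1) := by
        have h : ((Finset.range (t + 2)).filter
          (fun l => t + 4 ≤ 4 * l ∧ 8 * l ≤ 5 * t)).card ≤ t + 2 := by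
          refine le_trans (Finset.card_filter_le _ _) ?_
          rw [Finset.card_range]
        have h' : ((((Finset.range (t + 2)).filter
          (fun l => t + 4 ≤ 4 * l ∧ 8 * l ≤ 5 * t)).card : ℕ) : ℝ) ≤ (t : ℝ) + 2 := by
          exact_mod_cast h
        linarith
      calc ((((Finset.range (t + 2)).filter
          (fun l => t + 4 ≤ 4 * l ∧ 8 * l ≤ 5 * t)).card : ℕ) : ℝ) *
            (C1 * 2 ^ t * 8 ^ (p + 1) / ((t : ℝ) + 1) ^ (p + 1))
          ≤ 2 * ((t : ℝ) + 1) * (C1 * 2 ^ t * 8 ^ (p + 1) / ((t : ℝ) + 1) ^ (p + 1)) := by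
            apply mul_le_mul_of_nonneg_right hcard (by positivity)
        _ = 2 * 8 ^ (p + 1) * C1 * 2 ^ t / ((t : ℝ) + 1) ^ p := by
            rw [pow_succ ((t : ℝ) + 1) p]
            field_simp
    -- tails
    have hexp := exp_le p t (by omega)
    have htl := tail_le t ht
    have hu : (0 : ℝ) ≤ (t : ℝ) / 8 := by positivity
    obtain ⟨hhi, hlo⟩ := h3 (t + 1) ((t : ℝ) / 8) (by omega) hu
    have hlow : ∑ l ∈ (Finset.range (t + 2)).filter (fun l => 4 * l < t + 4), P l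
        ≤ 4 * 2 ^ t * ((p.factorial : ℝ) * 288 ^ p / ((t : ℝ) + 1) ^ p) := by
      have hsub : (Finset.range (t + 2)).filter (fun l => 4 * l < t + 4) ⊆
          (Finset.range (t + 1 + 1)).filter
            (fun r : ℕ => (t : ℝ) / 8 ≤ ((t + 1 : ℕ) : ℝ) - 2 * r) := by
        intro l hl
        rw [Finset.mem_filter] at hl ⊢
        refine ⟨hl.1, ?_⟩
        have h4 : 4 * (l : ℝ) < t + 4 := by exact_mod_cast hl.2
        push_cast
        linarith
      calc ∑ l ∈ (Finset.range (t + 2)).filter (fun l => 4 * l < t + 4), P l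
          ≤ ∑ l ∈ (Finset.range (t + 2)).filter (fun l => 4 * l < t + 4),
              2 * ((t + 1).choose l : ℝ) := Finset.sum_le_sum (fun l _ => hP1 l)
        _ = 2 * ∑ l ∈ (Finset.range (t + 2)).filter (fun l => 4 * l < t + 4),
              ((t + 1).choose l : ℝ) := by rw [Finset.mul_sum]
        _ ≤ 2 * (2 ^ (t + 1) * Real.exp (-(((t : ℝ) / 8) ^ 2 / (2 * ((t + 1 : ℕ) : ℝ))))) := by
            apply mul_le_mul_of_nonneg_left _ (by norm_num)
            refine le_trans (Finset.sum_le_sum_of_subset_of_nonneg hsub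
              (fun l _ _ => Nat.cast_nonneg _)) hlo
        _ ≤ 2 * (2 ^ (t + 1) * ((p.factorial : ℝ) * 288 ^ p / ((t : ℝ) + 1) ^ p)) := by
            apply mul_le_mul_of_nonneg_left _ (by norm_num)
            apply mul_le_mul_of_nonneg_left (le_trans htl hexp) (by positivity)
        _ = 4 * 2 ^ t * ((p.factorial : ℝ) * 288 ^ p / ((t : ℝ) + 1) ^ p) := by ring
    have hhigh : ∑ l ∈ (Finset.range (t + 2)).filter (fun l => 5 * t < 8 * l), P l
        ≤ 4 * 2 ^ t * ((p.factorial : ℝ) * 288 ^ p / ((t : ℝ) + 1) ^ p) := by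
      have hsub : (Finset.range (t + 2)).filter (fun l => 5 * t < 8 * l) ⊆
          (Finset.range (t + 1 + 1)).filter
            (fun r : ℕ => (t : ℝ) / 8 ≤ 2 * (r : ℝ) - ((t + 1 : ℕ) : ℝ)) := by
        intro l hl
        rw [Finset.mem_filter] at hl ⊢
        refine ⟨hl.1, ?_⟩
        have h4 : 5 * (t : ℝ) < 8 * l := by exact_mod_cast hl.2
        push_cast
        linarith
      calc ∑ l ∈ (Finset.range (t + 2)).filter (fun l => 5 * t < 8 * l), P l
          ≤ ∑ l ∈ (Finset.range (t + 2)).filter (fun l => 5 * t < 8 * l),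
              2 * ((t + 1).choose l : ℝ) := Finset.sum_le_sum (fun l _ => hP1 l)
        _ = 2 * ∑ l ∈ (Finset.range (t + 2)).filter (fun l => 5 * t < 8 * l),
              ((t + 1).choose l : ℝ) := by rw [Finset.mul_sum]
        _ ≤ 2 * (2 ^ (t + 1) * Real.exp (-(((t : ℝ) / 8) ^ 2 / (2 * ((t + 1 : ℕ) : ℝ))))) := by
            apply mul_le_mul_of_nonneg_left _ (by norm_num)
            refine le_trans (Finset.sum_le_sum_of_subset_of_nonneg hsub
              (fun l _ _ => Nat.cast_nonneg _)) hhi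
        _ ≤ 2 * (2 ^ (t + 1) * ((p.factorial : ℝ) * 288 ^ p / ((t : ℝ) + 1) ^ p)) := by
            apply mul_le_mul_of_nonneg_left _ (by norm_num)
            apply mul_le_mul_of_nonneg_left (le_trans htl hexp) (by positivity)
        _ = 4 * 2 ^ t * ((p.factorial : ℝ) * 288 ^ p / ((t : ℝ) + 1) ^ p) := by ring
    have hfin : 2 * 8 ^ (p + 1) * C1 * 2 ^ t / ((t : ℝ) + 1) ^ p +
        4 * 2 ^ t * ((p.factorial : ℝ) * 288 ^ p / ((t : ℝ) + 1) ^ p) +
        4 * 2 ^ t * ((p.factorial : ℝ) * 288 ^ p / ((t : ℝ) + 1) ^ p)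
        = (2 * 8 ^ (p + 1) * C1 + 8 * ((p.factorial : ℝ) * 288 ^ p)) * 2 ^ t / ((t : ℝ) + 1) ^ p := by
      field_simp
      ring
    have hlast : (2 * 8 ^ (p + 1) * C1 + 8 * ((p.factorial : ℝ) * 288 ^ p)) * 2 ^ t / ((t : ℝ) + 1) ^ p
        ≤ (4 * 9 ^ p + 2 * 8 ^ (p + 1) * C1 + 8 * ((p.factorial : ℝ) * 288 ^ p)) * 2 ^ t
          / ((t : ℝ) + 1) ^ p := by
      apply div_le_div_of_nonneg_right _ hpos.le
      apply mul_le_mul_of_nonneg_right _ (by positivity)
      have : (0 : ℝ) ≤ 4 * 9 ^ p := by positivity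
      linarith
    calc ∑ l ∈ Finset.range (t + 2), P l ≤ _ := hsplit
      _ ≤ 2 * 8 ^ (p + 1) * C1 * 2 ^ t / ((t : ℝ) + 1) ^ p +
        4 * 2 ^ t * ((p.factorial : ℝ) * 288 ^ p / ((t : ℝ) + 1) ^ p) +
        4 * 2 ^ t * ((p.factorial : ℝ) * 288 ^ p / ((t : ℝ) + 1) ^ p) := by
          linarith
      _ = _ := hfin
      _ ≤ _ := hlast

end Pool.Agent.WR3.H74
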